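import Pool.Agent.Work.MP_91aed7_am.Interface

/-! Block NLP -/

set_option autoImplicit false

open Polynomial

namespace Pool.AM

theorem stmt_NLP : Stmt_NLP := by
  intro R _ ι _ _ N U h
  set V : ℕ → Matrix ι ι R := fun i => U.map (fun p => p.coeff i) with hV
  have key : ∀ i j, ((Mt N * U) i j) = U i j + X * ∑ l, C (N i l) * U l j := by
    intro i j
    unfold Mt
    rw [Matrix.add_mul, Matrix.one_mul, Matrix.add_apply, Matrix.smul_mul, Matrix.smul_apply,
      Matrix.mul_apply, smul_eq_mul]
    rfl
  have h0 : V 0 = 1 := by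
    ext i j
    have h1 : ((Mt N * U) i j).coeff 0 = ((1 : Matrix ι ι (Polynomial R)) i j).coeff 0 := by rw [h]
    rw [key, Polynomial.coeff_add, Polynomial.coeff_X_mul_zero, add_zero] at h1
    show (U i j).coeff 0 = _
    rw [h1]
    by_cases hij : i = j
    · subst hij; simp
    · simp [Matrix.one_apply_ne hij]
  have hs : ∀ n, V (n + 1) = -N * V n := by
    intro n
    ext i j
    have h1 : ((Mt N * U) i j).coeff (n + 1) = ((1 : Matrix ι ι (Polynomial R)) i j).coeff (n + 1) := by
      rw [h]
    rw [key, Polynomial.coeff_add, Polynomial.coeff_X_mul] at h1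
    have h2 : (((1 : Matrix ι ι (Polynomial R)) i j)).coeff (n + 1) = 0 := by
      by_cases hij : i = j
      · subst hij; simp [Polynomial.coeff_one]
      · simp [Matrix.one_apply_ne hij]
    rw [h2, Polynomial.finsetSum_coeff] at h1
    simp only [Polynomial.coeff_C_mul] at h1
    show (U i j).coeff (n + 1) = (-N * V n) i j
    rw [Matrix.neg_mul, Matrix.neg_apply, Matrix.mul_apply]
    have h3 : ∑ l, N i l * V n l j = ∑ l, N i l * (U l j).coeff n := rfl
    rw [h3]
    exact eq_neg_of_add_eq_zero_left h1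
  have hp : ∀ n, V n = (-N) ^ n := by
    intro n
    induction n with
    | zero => rw [h0, pow_zero]
    | succ n ih => rw [hs, ih, pow_succ']
  set n := (Finset.univ.sup fun q : ι × ι => (U q.1 q.2).natDegree) + 1 with hn
  refine ⟨n, ?_⟩
  have h1 : V n = 0 := by
    ext i j
    show (U i j).coeff n = 0
    apply Polynomial.coeff_eq_zero_of_natDegree_lt
    have := Finset.le_sup (f := fun q : ι × ι => (U q.1 q.2).natDegree) (Finset.mem_univ (i, j))
    simp only at this
    omega
  rw [hp, neg_pow] at h1
  have h2 : (-1 : Matrix ι ι R) ^ n * ((-1) ^ n * N ^ n) = (-1 : Matrix ι ι R) ^ n * 0 := by rw [h1]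
  rw [← mul_assoc, ← pow_add, ← two_mul, pow_mul, neg_one_sq, one_pow, one_mul, mul_zero] at h2
  exact h2

end Pool.AM
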